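import Pool.Agent.Results.MP_3b2c1c_al.NotBrodskii

/-!
# Thompson's group is bi-orderable, and torsion, soluble groups do not contain it
-/

set_option autoImplicit false

open scoped commutatorElement

namespace Pool.Agent.Y136.BO

open Pool.Agent.H117R3 Pool.Agent.Results.MP_3b2c1c_al.NotBrodskii

universe u

/-- `G` is bi-orderable: it has a total order which is invariant under left and right
multiplication. -/
def BiOrderable (G : Type u) [Group G] : Prop :=
  ∃ r : G → G → Prop, (∀ a, ¬ r a a) ∧ (∀ a b c, r a b → r b c → r a c) ∧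
    (∀ a b, r a b ∨ a = b ∨ r b a) ∧
    ∀ a b c, r a b → r (c * a) (c * b) ∧ r (a * c) (b * c)

/-! ### The order -/

/-- The identity up to some point, and then moving the points to the right. -/
def Pos (f : ℝ ≃o ℝ) : Prop :=
  ∃ p : ℝ, (∀ x ≤ p, f x = x) ∧ ∃ ε > 0, ∀ y, p < y → y ≤ p + ε → y < f y

theorem not_pos_one : ¬ Pos 1 := by
  rintro ⟨p, _, ε, hε, h⟩
  have := h (p + ε) (by linarith) le_rfl
  exact lt_irrefl _ this

theorem Pos.mul {f g : ℝ ≃o ℝ} (hf : Pos f) (hg : Pos g) : Pos (f * g) := by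
  obtain ⟨p, h1, ε, hε, h2⟩ := hf
  obtain ⟨q, h3, δ, hδ, h4⟩ := hg
  have hmul : ∀ y, (f * g) y = f (g y) := fun y => rfl
  rcases lt_trichotomy p q with hpq | hpq | hpq
  · refine ⟨p, fun x hx => ?_, min ε (q - p), lt_min hε (by linarith), fun y hy hy' => ?_⟩
    · rw [hmul, h3 x (by linarith), h1 x hx]
    · have h5 := min_le_left ε (q - p)
      have h6 := min_le_right ε (q - p)
      rw [hmul, h3 y (by linarith)]
      exact h2 y hy (by linarith)
  · subst hpq
    refine ⟨p, fun x hx => ?_, min ε δ, lt_min hε hδ, fun y hy hy' => ?_⟩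
    · rw [hmul, h3 x hx, h1 x hx]
    · have h5 := min_le_left ε δ
      have h6 := min_le_right ε δ
      rw [hmul]
      exact (h2 y hy (by linarith)).trans (f.strictMono (h4 y hy (by linarith)))
  · refine ⟨q, fun x hx => ?_, min δ (p - q), lt_min hδ (by linarith), fun y hy hy' => ?_⟩
    · rw [hmul, h3 x hx, h1 x (by linarith)]
    · have h5 := min_le_left δ (p - q)
      have h6 := min_le_right δ (p - q)
      rw [hmul]
      have h7 := f.strictMono (h4 y hy (by linarith))
      rwa [h1 y (by linarith)] at h7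

theorem Pos.conj {f : ℝ ≃o ℝ} (hf : Pos f) (k : ℝ ≃o ℝ) : Pos (k * f * k⁻¹) := by
  obtain ⟨p, h1, ε, hε, h2⟩ := hf
  have hmul : ∀ y, (k * f * k⁻¹) y = k (f (k.symm y)) := fun y => rfl
  refine ⟨k p, fun x hx => ?_, k (p + ε) - k p, ?_, fun y hy hy' => ?_⟩
  · have h3 : k.symm x ≤ p := by rw [k.symm_apply_le]; exact hx
    rw [hmul, h1 _ h3, k.apply_symm_apply]
  · have := k.strictMono (show p < p + ε by linarith)
    linarith
  · have h3 : p < k.symm y := by rw [k.lt_symm_apply]; exact hy
    have h4 : k.symm y ≤ p + ε := by rw [k.symm_apply_le]; linarith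
    rw [hmul]
    have h5 := k.strictMono (h2 _ h3 h4)
    rwa [k.apply_symm_apply] at h5

theorem pos_or {f : ℝ ≃o ℝ} (hf : RightAffine f) (hne : f ≠ 1) : Pos f ∨ Pos f⁻¹ := by
  obtain ⟨y0, hy0⟩ : ∃ y, f y ≠ y := by
    by_contra h
    push Not at h
    exact hne (RelIso.ext h)
  let S : Set ℝ := {x | ∀ y ≤ x, f y = y}
  have hS0 : (0 : ℝ) ∈ S := fun y hy => hf.1 y hy
  have hSb : BddAbove S := ⟨y0, fun x hx => by
    by_contra hcon
    exact hy0 (hx y0 (not_le.mp hcon).le)⟩
  have hlub : IsLUB S (sSup S) := isLUB_csSup ⟨0, hS0⟩ hSb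
  set p := sSup S with hp
  have hlt : ∀ y < p, f y = y := by
    intro y hy
    obtain ⟨x, hx, hyx⟩ := (lt_isLUB_iff hlub).mp hy
    exact hx y hyx.le
  have hpfix : f p = p := by
    apply le_antisymm
    · by_contra hcon
      push Not at hcon
      -- `f p > p`
      have h1 : p < f.symm (f p) ∨ p = f.symm (f p) := Or.inr (by simp)
      obtain ⟨c, hc, ε, hε, h⟩ := hf.2 p
      -- the points below `p` are fixed, so `f` has a jump at `p`
      obtain ⟨z, hz⟩ : ∃ z, f z = (p + f p) / 2 := ⟨f.symm ((p + f p) / 2), f.apply_symm_apply _⟩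
      have h2 : z < p := by
        have : f z < f p := by rw [hz]; linarith
        exact f.lt_iff_lt.mp this
      rw [hlt z h2] at hz
      linarith
    · by_contra hcon
      push Not at hcon
      -- `f p < p`
      obtain ⟨z, hz1, hz2⟩ := exists_between hcon
      have h1 : f z = z := hlt z hz2
      have h2 : f z < f p := by
        rw [h1]
        have h3 := f.strictMono hz2
        rw [h1] at h3
        exact absurd (hz1.trans h3) (lt_irrefl _)
      rw [h1] at h2
      exact absurd (hz1.trans h2) (lt_irrefl _)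
  have hle : ∀ y ≤ p, f y = y := by
    intro y hy
    rcases hy.lt_or_eq with h | h
    · exact hlt y h
    · rw [h, hpfix]
  obtain ⟨c, hc, ε, hε, h⟩ := hf.2 p
  rw [hpfix] at h
  rcases lt_trichotomy c 1 with hc1 | hc1 | hc1
  · right
    have hsymm : ∀ y, f⁻¹ y = f.symm y := fun y => rfl
    refine ⟨p, fun x hx => ?_, f (p + ε) - p, ?_, fun y hy hy' => ?_⟩
    · rw [hsymm, f.symm_apply_eq, hle x hx]
    · have := f.strictMono (show p < p + ε by linarith)
      rw [hpfix] at this
      linarith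
    · have h3 : p < f.symm y := by rw [f.lt_symm_apply, hpfix]; exact hy
      have h4 : f.symm y ≤ p + ε := by rw [f.symm_apply_le]; linarith
      have h5 := h (f.symm y) h3.le h4
      rw [f.apply_symm_apply] at h5
      rw [hsymm]
      nlinarith
  · exfalso
    have h6 : p + ε ∈ S := by
      intro y hy
      rcases le_total y p with h7 | h7
      · exact hle y h7
      · rw [h y h7 hy, hc1]
        ring
    have := hlub.1 h6
    linarith
  · left
    refine ⟨p, hle, ε, hε, fun y hy hy' => ?_⟩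
    rw [h y hy.le hy']
    nlinarith

theorem biOrderable_LL : BiOrderable LL := by
  refine ⟨fun a b => Pos ((a : ℝ ≃o ℝ)⁻¹ * b), fun a h => ?_, fun a b c h1 h2 => ?_,
    fun a b => ?_, fun a b c h => ⟨?_, ?_⟩⟩
  · have h' : Pos ((a : ℝ ≃o ℝ)⁻¹ * a) := h
    rw [inv_mul_cancel] at h'
    exact not_pos_one h'
  · have := h1.mul h2
    rwa [mul_assoc, mul_inv_cancel_left] at this
  · by_cases hab : a = b
    · exact Or.inr (Or.inl hab)
    · have h1 : ((a : ℝ ≃o ℝ)⁻¹ * b) ≠ 1 := by
        intro h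
        rw [inv_mul_eq_one] at h
        exact hab (Subtype.ext h)
      have h2 : RightAffine ((a : ℝ ≃o ℝ)⁻¹ * b) := RightAffine.mul (RightAffine.inv a.2) b.2
      rcases pos_or h2 h1 with h | h
      · exact Or.inl h
      · rw [mul_inv_rev, inv_inv] at h
        exact Or.inr (Or.inr h)
  · change Pos ((c * a : ℝ ≃o ℝ)⁻¹ * (c * b))
    rw [mul_inv_rev, mul_assoc, inv_mul_cancel_left]
    exact h
  · change Pos ((a * c : ℝ ≃o ℝ)⁻¹ * (b * c))
    have h3 := h.conj ((c : ℝ ≃o ℝ)⁻¹)
    rw [inv_inv] at h3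
    rw [mul_inv_rev, mul_assoc, ← mul_assoc ((a : ℝ ≃o ℝ)⁻¹), ← mul_assoc]
    exact h3

theorem BiOrderable.of_injective {G H : Type*} [Group G] [Group H] (f : G →* H)
    (hf : Function.Injective f) (h : BiOrderable H) : BiOrderable G := by
  obtain ⟨r, h1, h2, h3, h4⟩ := h
  refine ⟨fun a b => r (f a) (f b), fun a => h1 _, fun a b c => h2 _ _ _, fun a b => ?_,
    fun a b c hab => ?_⟩
  · rcases h3 (f a) (f b) with h | h | h
    · exact Or.inl h
    · exact Or.inr (Or.inl (hf h))
    · exact Or.inr (Or.inr h)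
  · change r (f (c * a)) (f (c * b)) ∧ r (f (a * c)) (f (b * c))
    rw [map_mul, map_mul, map_mul, map_mul]
    exact h4 _ _ _ hab

/-! ### Groups in which the relations force commutation -/

section algebra

variable {G : Type*} [Group G]

/-- The generators `x₁, x₂, …` of Thompson's group. -/
def xs (a b : G) (n : ℕ) : G := a ^ n * b * (a ^ n)⁻¹

theorem xs_conj (a b : G) (k m : ℕ) : a ^ k * xs a b m * (a ^ k)⁻¹ = xs a b (k + m) := by
  unfold xs
  rw [pow_add, mul_inv_rev]
  simp only [mul_assoc]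

theorem Rel.xs_shift {a b : G} (h : Rel a b) (n : ℕ) :
    b * xs a b (n + 1) * b⁻¹ = xs a b (n + 2) := by
  have h1 : b * xs a b 1 * b⁻¹ = xs a b 2 := by
    have := h.1
    have e1 : xs a b 1 = a * b * a⁻¹ := by simp [xs]
    have e2 : xs a b 2 = a * (a * b * a⁻¹) * a⁻¹ := by
      rw [← e1, show (2 : ℕ) = 1 + 1 from rfl, ← xs_conj]
      simp
    rw [e1, e2]
    exact this
  have h2 : b * xs a b 2 * b⁻¹ = xs a b 3 := by
    have := h.2
    have e1 : xs a b 1 = a * b * a⁻¹ := by simp [xs]
    have e2 : xs a b 2 = a * (a * b * a⁻¹) * a⁻¹ := by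
      rw [← e1, show (2 : ℕ) = 1 + 1 from rfl, ← xs_conj]
      simp
    have e3 : xs a b 3 = a * (a * (a * b * a⁻¹) * a⁻¹) * a⁻¹ := by
      rw [← e2, show (3 : ℕ) = 1 + 2 from rfl, ← xs_conj]
      simp
    rw [e2, e3]
    exact this
  induction n using Nat.strong_induction_on with
  | _ n ih =>
    rcases n with _ | _ | n
    · exact h1
    · exact h2
    · -- the relation for `n + 1` and `n + 2`
      have i1 := ih n (by omega)
      have i2 := ih (n + 1) (by omega)
      -- conjugates of the relation for `n + 1`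
      have c : ∀ k, xs a b k * xs a b (k + (n + 1)) * (xs a b k)⁻¹ = xs a b (k + (n + 2)) := by
        intro k
        rw [← xs_conj a b k (n + 1), ← xs_conj a b k (n + 2), ← i1]
        unfold xs
        group
      have c1 := c 1
      have c2 := c 2
      have e4 : 1 + (n + 1) = n + 2 := by omega
      have e5 : 1 + (n + 2) = n + 3 := by omega
      have e6 : 2 + (n + 1) = n + 3 := by omega
      have e7 : 2 + (n + 2) = n + 4 := by omega
      rw [e4, e5] at c1
      rw [e6, e7] at c2
      calc b * xs a b (n + 2 + 1) * b⁻¹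
          = b * (xs a b 1 * xs a b (n + 2) * (xs a b 1)⁻¹) * b⁻¹ := by rw [c1]
        _ = (b * xs a b 1 * b⁻¹) * (b * xs a b (n + 2) * b⁻¹) * (b * xs a b 1 * b⁻¹)⁻¹ := by
          group
        _ = xs a b 2 * xs a b (n + 3) * (xs a b 2)⁻¹ := by rw [h1, i2]
        _ = xs a b (n + 2 + 2) := by rw [c2]

/-- If `a` has finite order, the relations force `a` and `b` to commute. -/
theorem comm_of_pow {a b : G} (h : Rel a b) {N : ℕ} (hN : 0 < N) (ha : a ^ N = 1) :
    a * b = b * a := by
  obtain ⟨n, rfl⟩ : ∃ n, N = n + 1 := ⟨N - 1, by omega⟩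
  have h1 := Rel.xs_shift h n
  have e1 : xs a b (n + 1) = b := by
    unfold xs
    rw [ha]
    simp
  have e2 : xs a b (n + 2) = a * b * a⁻¹ := by
    rw [show n + 2 = 1 + (n + 1) by omega, ← xs_conj, e1]
    simp
  rw [e1, e2, mul_inv_cancel_right] at h1
  rw [eq_mul_inv_iff_mul_eq] at h1
  exact h1.symm

theorem sep_of_torsion {G : Type u} [Group G] (hG : ∀ g : G, ∃ n : ℕ, 0 < n ∧ g ^ n = 1) :
    Sep G := by
  intro a b h
  obtain ⟨n, hn, ha⟩ := hG a
  exact comm_of_pow h hn ha

theorem sep_of_solvable {G : Type u} [Group G] (hG : Group.IsSolvable G) : Sep G := by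
  obtain ⟨N, hN⟩ := hG.solvable
  have key : ∀ m k, k + m = N → ∀ a ∈ derivedSeries G k, ∀ b ∈ derivedSeries G k,
      Rel a b → a * b = b * a := by
    intro m
    induction m with
    | zero =>
      intro k hk a ha b hb _
      rw [show k = N by omega, hN, Subgroup.mem_bot] at ha hb
      rw [ha, hb]
    | succ m ih =>
      intro k hk a ha b hb h
      have hc : (b⁻¹ * b⁻¹ * (a * b * a⁻¹) * b) ∈ derivedSeries G (k + 1) := by
        have h1 : ⁅b⁻¹, a⁆ ∈ derivedSeries G (k + 1) :=
          Subgroup.commutator_mem_commutator (inv_mem hb) ha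
        have h2 := (derivedSeries_normal G (k + 1)).conj_mem _ h1 b⁻¹
        have h3 : b⁻¹ * ⁅b⁻¹, a⁆ * b⁻¹⁻¹ = b⁻¹ * b⁻¹ * (a * b * a⁻¹) * b := by
          rw [commutatorElement_def]
          group
        rwa [h3] at h2
      have hd : (b⁻¹ * (b⁻¹ * b⁻¹ * (a * b * a⁻¹) * b) * b⁻¹⁻¹) ∈ derivedSeries G (k + 1) :=
        (derivedSeries_normal G (k + 1)).conj_mem _ hc _
      exact comm_of_theta h (ih (k + 1) (by omega) _ hc _ hd h.theta)
  intro a b h
  refine key N 0 (by omega) a ?_ b ?_ h <;> simp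

end algebra

end Pool.Agent.Y136.BO
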